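import Mathlib
import Pool.Agent.H67.FS.Targets

set_option autoImplicit false

/-!
# GRAD: homogeneous pieces with respect to the torus (MP_6f7589_ag)
-/

namespace Pool.Agent.H29.FS

open Matrix Pool.Agent.H67.FS

universe u

/-- coefficients of a polynomial map on the torus with values in a subspace -/
lemma coeff_mem {K κ : Type u} [Field K] [Infinite K] [Field κ] [Algebra K κ] {ι E : Type}
    [Fintype ι] [Fintype E] [DecidableEq (ι → ℕ)] {V : Type u} [AddCommGroup V] [Module κ V]
    (W : Submodule κ V)
    (ex : E → ι → ℕ) (v : E → V)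
    (h : ∀ x : ι → Kˣ, ∑ s, algebraMap K κ (∏ l, (x l : K) ^ (ex s l)) • v s ∈ W) (ν : ι → ℕ) :
    ∑ s, (if ex s = ν then v s else 0) ∈ W := by
  classical
  by_contra hn
  obtain ⟨φ, hφ1, hφ2⟩ := Submodule.exists_le_ker_of_notMem hn
  set p : MvPolynomial ι κ :=
    ∑ s, MvPolynomial.monomial (Finsupp.equivFunOnFinite.symm (ex s)) (φ (v s)) with hp
  have hp0 : p = 0 := by
    apply MvPolynomial.funext_set (fun _ => ((algebraMap K κ) '' ({0}ᶜ : Set K)))
    · intro i
      apply Set.Infinite.image
      · exact (algebraMap K κ).injective.injOn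
      · exact (Set.finite_singleton (0 : K)).infinite_compl
    · intro z hz
      have hz' : ∀ i, ∃ x : Kˣ, algebraMap K κ (x : K) = z i := by
        intro i
        obtain ⟨t, ht, htz⟩ := hz i trivial
        exact ⟨Units.mk0 t (by simpa using ht), by simpa using htz⟩
      choose x hx using hz'
      have h1 := hφ2 (h x)
      rw [LinearMap.mem_ker, map_sum] at h1
      rw [map_zero, hp, map_sum, ← h1]
      apply Finset.sum_congr rfl
      intro s _
      rw [MvPolynomial.eval_monomial, map_smul, smul_eq_mul, mul_comm]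
      congr 1
      rw [map_prod, Finsupp.prod_fintype]
      · apply Finset.prod_congr rfl
        intro l _
        rw [map_pow, hx]
        rfl
      · intro i
        exact pow_zero _
  apply hφ1
  have h2 : MvPolynomial.coeff (Finsupp.equivFunOnFinite.symm ν) p = 0 := by
    rw [hp0, MvPolynomial.coeff_zero]
  rw [hp, MvPolynomial.coeff_sum] at h2
  rw [map_sum, ← h2]
  apply Finset.sum_congr rfl
  intro s _
  rw [MvPolynomial.coeff_monomial]
  by_cases hs : ex s = ν
  · rw [if_pos hs, if_pos (by rw [hs])]
  · rw [if_neg hs, if_neg (fun h => hs (Finsupp.equivFunOnFinite.symm.injective h)), map_zero]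

section monomials

set_option linter.unusedSectionVars false

variable {K : Type u} [Field K] {ι : Type} [Fintype ι] [DecidableEq ι]

lemma prod_mono (x : ι → K) (f g : ι → ℕ) :
    (∏ l, x l ^ f l) * (∏ l, x l ^ g l) = ∏ l, x l ^ (f l + g l) := by
  rw [← Finset.prod_mul_distrib]
  exact Finset.prod_congr rfl (fun l _ => (pow_add _ _ _).symm)

lemma prod_single (x : ι → K) (i : ι) : ∏ l, x l ^ (if l = i then 1 else 0) = x i := by
  rw [Finset.prod_eq_single i]
  · simp
  · intro b _ hb
    simp [hb]
  · simp

lemma prod_mem (x : ι → K) (S : Finset ι) : ∏ l, x l ^ (if l ∈ S then 1 else 0) = ∏ l ∈ S, x l := by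
  rw [← Finset.prod_filter_mul_prod_filter_not Finset.univ (fun l => l ∈ S)]
  have h1 : ∏ l ∈ Finset.univ.filter (fun l => l ∈ S), x l ^ (if l ∈ S then 1 else 0) =
      ∏ l ∈ S, x l := by
    rw [Finset.filter_mem_eq_inter, Finset.univ_inter]
    apply Finset.prod_congr rfl
    intro l hl
    rw [if_pos hl, pow_one]
  have h2 : ∏ l ∈ Finset.univ.filter (fun l => ¬ l ∈ S), x l ^ (if l ∈ S then 1 else 0) = 1 := by
    apply Finset.prod_eq_one
    intro l hl
    rw [if_neg (Finset.mem_filter.1 hl).2, pow_zero]
  rw [h1, h2, mul_one]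

end monomials

/-- GRAD -/
theorem grad : T_GRAD.{u} := by
  intro K κ _ _ _ _ ι J J' _ _ _ _ P P' _ _ _ _ wt wt' d δ A hwt hwt' hA hS c hc
  classical
  -- the exponents
  let ex : ι × ι × J' → ι → ℕ := fun s l => (if l = s.1 then 1 else 0) +
    (if l = s.2.1 then 1 else 0) + (if l ∈ wt' s.2.2 then 0 else 1)
  let cc : ι × ι × J' → (∀ j', P' j') := fun s => Pi.single s.2.2 (c s.1 s.2.1 s.2.2)
  let m : (ι → ℕ) → (∀ j', P' j') := fun ν => ∑ s, if ex s = ν then cc s else 0
  have hexprod : ∀ (x : ι → K) (s : ι × ι × J'),
      (∏ l, x l ^ ex s l) * (∏ l ∈ wt' s.2.2, x l) = x s.1 * x s.2.1 * ∏ l, x l := by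
    intro x s
    rw [← prod_mem x (wt' s.2.2), ← prod_single x s.1, ← prod_single x s.2.1]
    have h1 : ∏ l, x l = ∏ l, x l ^ 1 := by simp
    rw [h1, prod_mono, prod_mono, prod_mono]
    apply Finset.prod_congr rfl
    intro l _
    congr 1
    simp only [ex]
    split_ifs <;> simp_all
  have hX0 : ∀ x : ι → Kˣ, algebraMap K κ (∏ l, (x l : K)) ≠ 0 := by
    intro x
    rw [Ne, FaithfulSMul.algebraMap_eq_zero_iff K κ]
    exact Finset.prod_ne_zero_iff.2 (fun l _ => (x l).ne_zero)
  have hP0 : ∀ (x : ι → Kˣ) (S : Finset ι), algebraMap K κ (∏ l ∈ S, (x l : K)) ≠ 0 := by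
    intro x S
    rw [Ne, FaithfulSMul.algebraMap_eq_zero_iff K κ]
    exact Finset.prod_ne_zero_iff.2 (fun l _ => (x l).ne_zero)
  -- evaluation of the sum over `s`
  have hcc : ∀ (x : ι → Kˣ) (j' : J'), algebraMap K κ (∏ l ∈ wt' j', (x l : K)) •
      (∑ s, algebraMap K κ (∏ l, (x l : K) ^ (ex s l)) • cc s) j' =
      algebraMap K κ (∏ l, (x l : K)) •
        (∑ i, ∑ k, algebraMap K κ (x i * x k) • c i k) j' := by
    intro x j'
    rw [Fintype.sum_prod_type, Finset.sum_apply, Finset.smul_sum, Finset.sum_apply,
      Finset.smul_sum]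
    apply Finset.sum_congr rfl
    intro i _
    rw [Fintype.sum_prod_type, Finset.sum_apply, Finset.smul_sum, Finset.sum_apply,
      Finset.smul_sum]
    apply Finset.sum_congr rfl
    intro k _
    rw [Finset.sum_apply, Finset.sum_eq_single j']
    · rw [Pi.smul_apply, Pi.smul_apply]
      simp only [cc, Pi.single_eq_same]
      rw [smul_smul, smul_smul, ← map_mul, ← map_mul, mul_comm, hexprod (fun l => (x l : K)),
        mul_comm (∏ l, (x l : K))]
    · intro b _ hb
      rw [Pi.smul_apply]
      simp only [cc]
      rw [Pi.single_eq_of_ne hb.symm, smul_zero]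
    · intro h
      exact absurd (Finset.mem_univ _) h
  have hm : ∀ ν, m ν ∈ LinearMap.range δ := by
    intro ν
    apply coeff_mem (K := K)
    intro x
    obtain ⟨u, hu⟩ := hc x
    let w : ∀ j, P j := fun j => (algebraMap K κ (∏ l ∈ wt j, (x l : K)))⁻¹ • u j
    have hw := hA (fun i => (x i : K)) w
    have hwu : (fun j => algebraMap K κ (∏ l ∈ wt j, (x l : K)) • w j) = u := by
      funext j
      simp only [w]
      rw [smul_smul, mul_inv_cancel₀ (hP0 x _), one_smul]
    rw [hwu, hu] at hw
    refine ⟨algebraMap K κ (∏ l, (x l : K)) • w, ?_⟩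
    funext j'
    have h1 := hcc x j'
    rw [hw] at h1
    have h2 : algebraMap K κ (∏ l ∈ wt' j', (x l : K)) •
        (∑ s, algebraMap K κ (∏ l, (x l : K) ^ (ex s l)) • cc s) j' =
        algebraMap K κ (∏ l ∈ wt' j', (x l : K)) •
          (δ (algebraMap K κ (∏ l, (x l : K)) • w)) j' := by
      rw [h1, map_smul, Pi.smul_apply, smul_smul, smul_smul, mul_comm]
    exact (smul_right_injective _ (hP0 x (wt' j')) h2).symm
  -- vanishing of `m ν`
  have hm0 : ∀ ν j', ¬ (∀ l, ν l = 0 → l ∈ wt' j') → m ν j' = 0 := by
    intro ν j' hj'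
    simp only [m]
    rw [Finset.sum_apply]
    apply Finset.sum_eq_zero
    intro s _
    by_cases hs : ex s = ν
    · rw [if_pos hs]
      simp only [cc]
      apply Pi.single_eq_of_ne
      rintro rfl
      apply hj'
      intro l hl
      rw [← hs] at hl
      simp only [ex] at hl
      by_contra hlw
      rw [if_neg hlw] at hl
      omega
    · rw [if_neg hs]
      rfl
  have hmT : ∀ ν, m ν ≠ 0 → ∃ s, ex s = ν := by
    intro ν hν
    by_contra hcon
    push Not at hcon
    apply hν
    simp only [m]
    apply Finset.sum_eq_zero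
    intro s _
    rw [if_neg (hcon s)]
  have hU : ∀ ν, ∃ u : (∀ j, P j), δ u = m ν ∧
      (∀ j, ¬ (∀ l, ν l = 0 → l ∈ wt j) → u j = 0) ∧ (m ν = 0 → u = 0) := by
    intro ν
    by_cases hν : m ν = 0
    · exact ⟨0, by rw [map_zero, hν], fun _ _ => rfl, fun _ => rfl⟩
    · obtain ⟨u0, hu0⟩ := hm ν
      by_cases hne : (Finset.univ.filter (fun l => ν l = 0)).Nonempty
      · obtain ⟨u', hu', hu''⟩ := hS _ hne u0 (by
          intro j' hj'
          rw [hu0]
          apply hm0
          intro hcon
          apply hj'
          intro l hl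
          exact hcon l (Finset.mem_filter.1 hl).2)
        refine ⟨u', by rw [hu'', hu0], ?_, fun h => absurd h hν⟩
        intro j hj
        apply hu'
        intro hcon
        apply hj
        intro l hl
        exact hcon (Finset.mem_filter.2 ⟨Finset.mem_univ _, hl⟩)
      · refine ⟨u0, hu0, ?_, fun h => absurd h hν⟩
        intro j hj
        exfalso
        apply hj
        intro l hl
        exact absurd ⟨l, Finset.mem_filter.2 ⟨Finset.mem_univ _, hl⟩⟩ hne
  choose U hU1 hU2 hU3 using hU
  let f : ι → J → ι → ℕ := fun l j t => (if t = l then 1 else 0) + (if t ∈ wt j then 0 else 1)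
  have hfinj : ∀ j, Function.Injective (fun l => f l j) := by
    intro j l l' hll
    have h1 := congrFun hll l
    simp only [f, if_true] at h1
    by_contra hne
    rw [if_neg hne] at h1
    omega
  have hfprod : ∀ (x : ι → K) (k : ι) (j : J),
      (∏ l, x l ^ f k j l) * (∏ l ∈ wt j, x l) = x k * ∏ l, x l := by
    intro x k j
    rw [← prod_mem x (wt j), ← prod_single x k]
    have h1 : ∏ l, x l = ∏ l, x l ^ 1 := by simp
    rw [h1, prod_mono, prod_mono]
    apply Finset.prod_congr rfl
    intro l _
    congr 1
    simp only [f]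
    split_ifs <;> simp_all
  have hex : ∀ ν j, m ν ≠ 0 → (∀ l, ν l = 0 → l ∈ wt j) → ∃ l, ν = f l j := by
    intro ν j hν hj
    obtain ⟨s, hs⟩ := hmT ν hν
    have hc1 : (wt' s.2.2).card ≤ Fintype.card ι := Finset.card_le_univ _
    have hc2 : (wt j).card ≤ Fintype.card ι := Finset.card_le_univ _
    rw [hwt'] at hc1
    rw [hwt] at hc2
    have hcomp : ∀ S : Finset ι, ∑ l, (if l ∈ S then 0 else 1) + S.card = Fintype.card ι := by
      intro S
      have h1 : S.card = ∑ l, (if l ∈ S then 1 else 0) := by simp
      rw [h1, ← Finset.sum_add_distrib, ← Finset.card_univ, Finset.card_eq_sum_ones]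
      apply Finset.sum_congr rfl
      intro l _
      split_ifs <;> rfl
    have hsum1 : ∑ l, ν l + (d + 1) = 2 + Fintype.card ι := by
      rw [← hs]
      simp only [ex]
      rw [Finset.sum_add_distrib, Finset.sum_add_distrib]
      have h1 := hcomp (wt' s.2.2)
      rw [hwt'] at h1
      simp only [Finset.sum_ite_eq', Finset.mem_univ, if_true]
      omega
    -- compare
    have hge : ∀ l, (if l ∈ wt j then 0 else 1) ≤ ν l := by
      intro l
      split_ifs with hl
      · exact Nat.zero_le _
      · rcases Nat.eq_zero_or_pos (ν l) with h0 | h0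
        · exact absurd (hj l h0) hl
        · exact h0
    have hsum2 : ∑ l, (ν l - (if l ∈ wt j then 0 else 1)) = 1 := by
      have h1 : ∑ l, (ν l - (if l ∈ wt j then 0 else 1)) + ∑ l, (if l ∈ wt j then 0 else 1) =
          ∑ l, ν l := by
        rw [← Finset.sum_add_distrib]
        apply Finset.sum_congr rfl
        intro l _
        exact Nat.sub_add_cancel (hge l)
      have h2 := hcomp (wt j)
      rw [hwt] at h2
      omega
    obtain ⟨l, -, hl⟩ := Finset.exists_ne_zero_of_sum_ne_zero (by rw [hsum2]; exact one_ne_zero)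
    have h3 := Finset.add_sum_erase Finset.univ
      (fun l => ν l - (if l ∈ wt j then 0 else 1)) (Finset.mem_univ l)
    rw [hsum2] at h3
    have h4 : ν l - (if l ∈ wt j then 0 else 1) = 1 := by omega
    have h5 : ∑ l ∈ Finset.univ.erase l, (ν l - (if l ∈ wt j then 0 else 1)) = 0 := by omega
    refine ⟨l, ?_⟩
    funext t
    simp only [f]
    by_cases htl : t = l
    · subst htl
      have := hge t
      rw [if_pos rfl]
      omega
    · rw [if_neg htl]
      have h6 := Finset.sum_eq_zero_iff.1 h5 t (Finset.mem_erase.2 ⟨htl, Finset.mem_univ _⟩)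
      have := hge t
      omega
  let y : ι → (∀ j, P j) := fun l j => U (f l j) j
  let T : Finset (ι → ℕ) := Finset.univ.image ex
  have hkey : ∀ x : ι → Kˣ, ∑ i, ∑ k, algebraMap K κ (x i * x k) • (A i (y k) - c i k) = 0 := by
    intro x
    set X : κ := algebraMap K κ (∏ l, (x l : K)) with hXdef
    let mon : (ι → ℕ) → κ := fun ν => algebraMap K κ (∏ l, (x l : K) ^ (ν l))
    let W : ∀ j, P j := ∑ ν ∈ T, mon ν • U ν
    have hδW : δ W = ∑ s, mon (ex s) • cc s := by
      simp only [W]
      rw [map_sum]
      have h1 : ∀ ν ∈ T, δ (mon ν • U ν) = ∑ s, if ex s = ν then mon (ex s) • cc s else 0 := by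
        intro ν _
        rw [map_smul, hU1]
        simp only [m]
        rw [Finset.smul_sum]
        apply Finset.sum_congr rfl
        intro s _
        split_ifs with hs
        · rw [hs]
        · rw [smul_zero]
      rw [Finset.sum_congr rfl h1, Finset.sum_comm]
      apply Finset.sum_congr rfl
      intro s _
      rw [Finset.sum_ite_eq]
      rw [if_pos (Finset.mem_image_of_mem _ (Finset.mem_univ _))]
    have hWj : ∀ j, W j = ∑ k, mon (f k j) • U (f k j) j := by
      intro j
      have h1 : W j = ∑ ν ∈ T, mon ν • U ν j := by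
        simp only [W]
        rw [Finset.sum_apply]
        rfl
      have h2 : ∑ k, mon (f k j) • U (f k j) j =
          ∑ ν ∈ Finset.univ.image (fun k => f k j), mon ν • U ν j := by
        rw [Finset.sum_image (fun a _ b _ h => hfinj j h)]
      rw [h1, h2]
      have h3 : ∑ ν ∈ T, mon ν • U ν j =
          ∑ ν ∈ T ∪ Finset.univ.image (fun k => f k j), mon ν • U ν j := by
        apply Finset.sum_subset Finset.subset_union_left
        intro ν _ hν
        have h4 : m ν = 0 := by
          by_contra hcon
          obtain ⟨s, hs⟩ := hmT ν hcon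
          apply hν
          rw [← hs]
          exact Finset.mem_image_of_mem _ (Finset.mem_univ _)
        rw [hU3 ν h4, Pi.zero_apply, smul_zero]
      have h4 : ∑ ν ∈ Finset.univ.image (fun k => f k j), mon ν • U ν j =
          ∑ ν ∈ T ∪ Finset.univ.image (fun k => f k j), mon ν • U ν j := by
        apply Finset.sum_subset Finset.subset_union_right
        intro ν _ hν
        by_cases h5 : m ν = 0
        · rw [hU3 ν h5, Pi.zero_apply, smul_zero]
        · by_cases h6 : ∀ l, ν l = 0 → l ∈ wt j
          · obtain ⟨l, hl⟩ := hex ν j h5 h6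
            exfalso
            apply hν
            rw [hl]
            exact Finset.mem_image_of_mem _ (Finset.mem_univ _)
          · rw [hU2 ν j h6, smul_zero]
      rw [h3, h4]
    have hy : (fun j => algebraMap K κ (∏ l ∈ wt j, (x l : K)) • (X⁻¹ • W) j) =
        ∑ k, algebraMap K κ (x k : K) • y k := by
      funext j
      rw [Pi.smul_apply, hWj, Finset.sum_apply, Finset.smul_sum, Finset.smul_sum]
      apply Finset.sum_congr rfl
      intro k _
      rw [Pi.smul_apply]
      simp only [y]
      rw [smul_smul, smul_smul]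
      congr 1
      have h1 : mon (f k j) * algebraMap K κ (∏ l ∈ wt j, (x l : K)) =
          algebraMap K κ (x k : K) * X := by
        rw [hXdef, ← map_mul, ← map_mul, hfprod (fun l => (x l : K))]
      have h2 : X ≠ 0 := hX0 x
      field_simp
      rw [mul_comm, h1, mul_comm]
    have h7 := hA (fun i => (x i : K)) (X⁻¹ • W)
    rw [hy, map_smul, hδW] at h7
    have h8 : (fun j' => algebraMap K κ (∏ l ∈ wt' j', (x l : K)) •
        (X⁻¹ • ∑ s, mon (ex s) • cc s) j') =
        (∑ i, ∑ k, algebraMap K κ (x i * x k) • c i k) := by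
      funext j'
      rw [Pi.smul_apply, smul_comm, hcc x j', smul_smul, inv_mul_cancel₀ (hX0 x), one_smul]
    rw [h8] at h7
    have h9 : ∑ i, ∑ k, algebraMap K κ (x i * x k) • (A i (y k) - c i k) =
        ∑ i, algebraMap K κ (x i : K) • A i (∑ k, algebraMap K κ (x k : K) • y k) -
          ∑ i, ∑ k, algebraMap K κ (x i * x k) • c i k := by
      rw [← Finset.sum_sub_distrib]
      apply Finset.sum_congr rfl
      intro i _
      rw [map_sum, Finset.smul_sum, ← Finset.sum_sub_distrib]
      apply Finset.sum_congr rfl
      intro k _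
      rw [map_smul, smul_smul, ← map_mul, smul_sub]
    rw [h9, h7, sub_self]
  -- compare coefficients
  let ex2 : ι × ι → ι → ℕ := fun s l => (if l = s.1 then 1 else 0) + (if l = s.2 then 1 else 0)
  have hfin : ∀ ν : ι → ℕ, ∑ s, (if ex2 s = ν then (A s.1 (y s.2) - c s.1 s.2) else 0) = 0 := by
    intro ν
    have h1 := coeff_mem (K := K) (⊥ : Submodule κ (∀ j', P' j')) ex2
      (fun s => A s.1 (y s.2) - c s.1 s.2) (by
        intro x
        rw [Submodule.mem_bot, Fintype.sum_prod_type, ← hkey x]
        apply Finset.sum_congr rfl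
        intro i _
        apply Finset.sum_congr rfl
        intro k _
        congr 2
        simp only [ex2]
        rw [← prod_mono, prod_single, prod_single]) ν
    exact (Submodule.mem_bot κ).1 h1
  refine ⟨y, ?_, ?_⟩
  · intro i
    have h1 := hfin (ex2 (i, i))
    rw [Finset.sum_eq_single (i, i)] at h1
    · rw [if_pos rfl] at h1
      exact sub_eq_zero.1 h1
    · rintro ⟨a, b⟩ _ hab
      rw [if_neg]
      intro hcon
      apply hab
      have h2 := congrFun hcon i
      simp only [ex2, if_true] at h2
      by_cases h3 : i = a <;> by_cases h4 : i = b <;> simp_all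
    · intro h
      exact absurd (Finset.mem_univ _) h
  · intro i k hik
    have h1 := hfin (ex2 (i, k))
    have hmem : ∀ s : ι × ι, ex2 s = ex2 (i, k) ↔ (s = (i, k) ∨ s = (k, i)) := by
      rintro ⟨a, b⟩
      constructor
      · intro hcon
        have h2 := congrFun hcon i
        have h3 := congrFun hcon k
        simp only [ex2, if_true] at h2 h3
        rw [if_neg hik] at h2
        rw [if_neg (Ne.symm hik)] at h3
        by_cases h4 : i = a
        · by_cases h5 : i = b
          · simp_all
          · left
            by_cases h6 : k = b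
            · rw [← h4, ← h6]
            · rw [if_neg h6] at h3
              by_cases h7 : k = a
              · exact absurd (h4.trans h7.symm) hik
              · rw [if_neg h7] at h3
                omega
        · right
          rw [if_neg h4] at h2
          by_cases h5 : i = b
          · by_cases h6 : k = a
            · rw [← h5, ← h6]
            · rw [if_neg h6] at h3
              by_cases h7 : k = b
              · exact absurd (h5.trans h7.symm) hik
              · rw [if_neg h7] at h3
                omega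
          · rw [if_neg h5] at h2
            omega
      · rintro (h | h)
        · rw [h]
        · rw [h]
          funext l
          simp only [ex2]
          exact add_comm _ _
    have h2 : ∑ s, (if ex2 s = ex2 (i, k) then (A s.1 (y s.2) - c s.1 s.2) else 0) =
        (A i (y k) - c i k) + (A k (y i) - c k i) := by
      rw [← Finset.sum_filter]
      have h3 : Finset.univ.filter (fun s => ex2 s = ex2 (i, k)) = {(i, k), (k, i)} := by
        ext s
        simp only [Finset.mem_filter, Finset.mem_univ, true_and, Finset.mem_insert,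
          Finset.mem_singleton]
        exact hmem s
      rw [h3, Finset.sum_pair]
      intro h
      exact hik (Prod.mk.inj h).1
    rw [h2] at h1
    have h4 : (A i (y k) + A k (y i)) - (c i k + c k i) = 0 := by
      rw [← h1]
      abel
    exact sub_eq_zero.1 h4

end Pool.Agent.H29.FS
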