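import Mathlib
import Pool.Agent.H67.FS.Targets

set_option autoImplicit false

/-!
# RK: exactness on the torus and dimensions (MP_6f7589_ag)
-/

namespace Pool.Agent.H29.FS

open Matrix Pool.Agent.H67.FS

universe u

section counting

variable {ι : Type} [LinearOrder ι] [Fintype ι]

lemma card_Prs : 2 * Fintype.card (Prs ι) = Fintype.card ι * (Fintype.card ι - 1) := by
  classical
  have h1 : Fintype.card (Prs ι) = ((Finset.univ : Finset (ι × ι)).filter fun p => p.1 < p.2).card := by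
    rw [Fintype.card_subtype]
  have h2 : ((Finset.univ : Finset (ι × ι)).filter fun p => p.1 < p.2).card =
      ((Finset.univ : Finset (ι × ι)).filter fun p => p.2 < p.1).card := by
    apply Finset.card_bij (fun p _ => p.swap)
    · intro p hp
      simpa using hp
    · intro p _ q _ h
      exact Prod.swap_injective h
    · intro p hp
      exact ⟨p.swap, by simpa using hp, by simp⟩
  have h3 : (Finset.univ : Finset ι).offDiag =
      ((Finset.univ : Finset (ι × ι)).filter fun p => p.1 < p.2) ∪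
        ((Finset.univ : Finset (ι × ι)).filter fun p => p.2 < p.1) := by
    ext p
    simp only [Finset.mem_offDiag, Finset.mem_univ, true_and, Finset.mem_union, Finset.mem_filter]
    exact ne_iff_lt_or_gt
  have h4 : Disjoint ((Finset.univ : Finset (ι × ι)).filter fun p => p.1 < p.2)
      ((Finset.univ : Finset (ι × ι)).filter fun p => p.2 < p.1) := by
    rw [Finset.disjoint_left]
    intro p hp hq
    simp at hp hq
    exact absurd hp (not_lt.mpr hq.le)
  have h5 := Finset.offDiag_card (Finset.univ : Finset ι)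
  rw [h3, Finset.card_union_of_disjoint h4, ← h2, ← h1, Finset.card_univ] at h5
  have h6 : Fintype.card ι * Fintype.card ι - Fintype.card ι =
      Fintype.card ι * (Fintype.card ι - 1) := by
    rw [Nat.mul_sub, Nat.mul_one]
  omega

lemma card_Trs : (Fintype.card ι).choose 3 ≤ Fintype.card (Trs ι) := by
  classical
  have h1 : (Fintype.card ι).choose 3 = Fintype.card {S : Finset ι // S.card = 3} := by
    rw [Fintype.card_finset_len]
  rw [h1]
  let f : {S : Finset ι // S.card = 3} → Trs ι := fun S =>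
    ⟨(S.1.orderEmbOfFin S.2 0, S.1.orderEmbOfFin S.2 1, S.1.orderEmbOfFin S.2 2),
      by
        constructor
        · exact (S.1.orderEmbOfFin S.2).strictMono (by decide)
        · exact (S.1.orderEmbOfFin S.2).strictMono (by decide)⟩
  apply Fintype.card_le_of_injective f
  intro S T hST
  have h2 : (f S).1 = (f T).1 := by rw [hST]
  simp only [f, Prod.mk.injEq] at h2
  obtain ⟨h0, h1, h2⟩ := h2
  have hfun : (S.1.orderEmbOfFin S.2 : Fin 3 → ι) = (T.1.orderEmbOfFin T.2 : Fin 3 → ι) := by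
    funext i
    fin_cases i
    · exact h0
    · exact h1
    · exact h2
  apply Subtype.ext
  have hS := Finset.range_orderEmbOfFin S.1 S.2
  have hT := Finset.range_orderEmbOfFin T.1 T.2
  rw [hfun, hT] at hS
  exact (Finset.coe_injective hS).symm

end counting

section dims

variable {F : Type u} [Field F] {ι : Type}

lemma finrank_quot (W : Submodule F (Fin 4 → F)) :
    Module.finrank F ((Fin 4 → F) ⧸ W) = 4 - Module.finrank F W := by
  have := Submodule.finrank_quotient_add_finrank W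
  rw [Module.finrank_fin_fun] at this
  omega

lemma finrank_E1 (e : ι → Fin 4 → F) (a : ι) (h : e a ≠ 0) : Module.finrank F (E1 e a) = 1 := by
  unfold E1
  exact finrank_span_singleton h

lemma finrank_E2 (e : ι → Fin 4 → F) (a b : ι) (h : LinearIndependent F ![e a, e b]) :
    Module.finrank F (E2 e a b) = 2 := by
  unfold E2
  have h1 := finrank_span_eq_card h
  have h2 : Set.range ![e a, e b] = {e a, e b} := by
    rw [Matrix.range_cons, Matrix.range_cons, Matrix.range_empty, Set.union_empty]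
    rfl
  rw [h2] at h1
  rw [h1, Fintype.card_fin]

lemma finrank_E3_le (e : ι → Fin 4 → F) (a b c : ι) : Module.finrank F (E3 e a b c) ≤ 3 := by
  classical
  unfold E3
  have h1 := finrank_span_le_card (R := F) ({e a, e b, e c} : Set (Fin 4 → F))
  refine h1.trans ?_
  rw [Set.toFinset_insert, Set.toFinset_insert, Set.toFinset_singleton]
  exact Finset.card_le_three

end dims

section torus

set_option linter.unusedSectionVars false

variable {K κ : Type u} [Field K] [Field κ] [Algebra K κ] {ι : Type} [Fintype ι]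
    [LinearOrder ι] (e : ι → Fin 4 → κ)

/-- diagonal scalings -/
def D1 (ξ : ι → κ) : C1 e →ₗ[κ] C1 e := LinearMap.pi fun a => ξ a • LinearMap.proj a
def D2 (ξ : ι → κ) : C2 e →ₗ[κ] C2 e := LinearMap.pi fun p => (ξ p.1.1 * ξ p.1.2) • LinearMap.proj p
def D3 (ξ : ι → κ) : C3 e →ₗ[κ] C3 e :=
  LinearMap.pi fun t => (ξ t.1.1 * ξ t.1.2.1 * ξ t.1.2.2) • LinearMap.proj t

lemma D1_apply (ξ : ι → κ) (u : C1 e) (a : ι) : D1 e ξ u a = ξ a • u a := rfl
lemma D2_apply (ξ : ι → κ) (u : C2 e) (p : Prs ι) :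
    D2 e ξ u p = (ξ p.1.1 * ξ p.1.2) • u p := rfl
lemma D3_apply (ξ : ι → κ) (u : C3 e) (t : Trs ι) :
    D3 e ξ u t = (ξ t.1.1 * ξ t.1.2.1 * ξ t.1.2.2) • u t := rfl

lemma D1_inv (ξ : ι → κ) (h : ∀ i, ξ i ≠ 0) (u : C1 e) : D1 e ξ (D1 e (fun i => (ξ i)⁻¹) u) = u := by
  funext a
  rw [D1_apply, D1_apply, smul_smul, mul_inv_cancel₀ (h a), one_smul]

lemma D2_inv (ξ : ι → κ) (h : ∀ i, ξ i ≠ 0) (u : C2 e) : D2 e ξ (D2 e (fun i => (ξ i)⁻¹) u) = u := by
  funext p
  rw [D2_apply, D2_apply, smul_smul]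
  have : ξ p.1.1 * ξ p.1.2 * ((ξ p.1.1)⁻¹ * (ξ p.1.2)⁻¹) = 1 := by
    field_simp [h p.1.1, h p.1.2]
  rw [this, one_smul]

lemma D2_inj (ξ : ι → κ) (h : ∀ i, ξ i ≠ 0) : Function.Injective (D2 e ξ) := by
  rw [← LinearMap.ker_eq_bot, LinearMap.ker_eq_bot']
  intro u hu
  funext p
  have := congrFun hu p
  rw [D2_apply] at this
  rcases smul_eq_zero.1 this with h1 | h1
  · exact absurd h1 (mul_ne_zero (h _) (h _))
  · exact h1

lemma D1_inj (ξ : ι → κ) (h : ∀ i, ξ i ≠ 0) : Function.Injective (D1 e ξ) := by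
  rw [← LinearMap.ker_eq_bot, LinearMap.ker_eq_bot']
  intro u hu
  funext p
  have := congrFun hu p
  rw [D1_apply] at this
  rcases smul_eq_zero.1 this with h1 | h1
  · exact absurd h1 (h _)
  · exact h1

lemma D3_inj (ξ : ι → κ) (h : ∀ i, ξ i ≠ 0) : Function.Injective (D3 e ξ) := by
  rw [← LinearMap.ker_eq_bot, LinearMap.ker_eq_bot']
  intro u hu
  funext p
  have := congrFun hu p
  rw [D3_apply] at this
  rcases smul_eq_zero.1 this with h1 | h1
  · exact absurd h1 (mul_ne_zero (mul_ne_zero (h _) (h _)) (h _))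
  · exact h1

lemma M1_sum (ξ : ι → κ) (u : C1 e) (p : Prs ι) :
    (∑ i, ξ i • M1 e i) u p = ξ p.1.1 • r1r e p u - ξ p.1.2 • r1l e p u := by
  rw [LinearMap.sum_apply, Finset.sum_apply]
  have h : ∀ i, (ξ i • M1 e i) u p =
      (if i = p.1.1 then ξ i • r1r e p u else 0) - (if i = p.1.2 then ξ i • r1l e p u else 0) := by
    intro i
    rw [LinearMap.smul_apply, Pi.smul_apply]
    show ξ i • ((if i = p.1.1 then r1r e p else 0) - (if i = p.1.2 then r1l e p else 0) :
      C1 e →ₗ[κ] _) u = _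
    rw [LinearMap.sub_apply, smul_sub]
    congr 1
    · split_ifs <;> simp
    · split_ifs <;> simp
  rw [Finset.sum_congr rfl (fun i _ => h i), Finset.sum_sub_distrib]
  simp

lemma M2_sum (ξ : ι → κ) (u : C2 e) (t : Trs ι) :
    (∑ i, ξ i • M2 e i) u t = ξ t.1.1 • r2bc e t u - ξ t.1.2.1 • r2ac e t u +
      ξ t.1.2.2 • r2ab e t u := by
  rw [LinearMap.sum_apply, Finset.sum_apply]
  have h : ∀ i, (ξ i • M2 e i) u t =
      (if i = t.1.1 then ξ i • r2bc e t u else 0) - (if i = t.1.2.1 then ξ i • r2ac e t u else 0) +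
      (if i = t.1.2.2 then ξ i • r2ab e t u else 0) := by
    intro i
    rw [LinearMap.smul_apply, Pi.smul_apply]
    show ξ i • ((if i = t.1.1 then r2bc e t else 0) - (if i = t.1.2.1 then r2ac e t else 0)
      + (if i = t.1.2.2 then r2ab e t else 0) : C2 e →ₗ[κ] _) u = _
    rw [LinearMap.add_apply, LinearMap.sub_apply, smul_add, smul_sub]
    congr 1
    · congr 1
      · split_ifs <;> simp
      · split_ifs <;> simp
    · split_ifs <;> simp
  rw [Finset.sum_congr rfl (fun i _ => h i), Finset.sum_add_distrib, Finset.sum_sub_distrib]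
  simp

lemma r1r_D1 (ξ : ι → κ) (u : C1 e) (p : Prs ι) :
    r1r e p (D1 e ξ u) = ξ p.1.2 • r1r e p u := by
  show (Submodule.factor (E1_le_right e p.1.1 p.1.2)) (ξ p.1.2 • u p.1.2) = _
  rw [map_smul]
  rfl

lemma r1l_D1 (ξ : ι → κ) (u : C1 e) (p : Prs ι) :
    r1l e p (D1 e ξ u) = ξ p.1.1 • r1l e p u := by
  show (Submodule.factor (E1_le_left e p.1.1 p.1.2)) (ξ p.1.1 • u p.1.1) = _
  rw [map_smul]
  rfl

lemma r2ab_D2 (ξ : ι → κ) (u : C2 e) (t : Trs ι) :
    r2ab e t (D2 e ξ u) = (ξ t.1.1 * ξ t.1.2.1) • r2ab e t u := by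
  unfold r2ab
  rw [LinearMap.comp_apply, LinearMap.comp_apply, LinearMap.proj_apply, LinearMap.proj_apply,
    D2_apply, map_smul]

lemma r2ac_D2 (ξ : ι → κ) (u : C2 e) (t : Trs ι) :
    r2ac e t (D2 e ξ u) = (ξ t.1.1 * ξ t.1.2.2) • r2ac e t u := by
  unfold r2ac
  rw [LinearMap.comp_apply, LinearMap.comp_apply, LinearMap.proj_apply, LinearMap.proj_apply,
    D2_apply, map_smul]

lemma r2bc_D2 (ξ : ι → κ) (u : C2 e) (t : Trs ι) :
    r2bc e t (D2 e ξ u) = (ξ t.1.2.1 * ξ t.1.2.2) • r2bc e t u := by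
  unfold r2bc
  rw [LinearMap.comp_apply, LinearMap.comp_apply, LinearMap.proj_apply, LinearMap.proj_apply,
    D2_apply, map_smul]

lemma M1_D1 (ξ : ι → κ) (u : C1 e) :
    (∑ i, ξ i • M1 e i) (D1 e ξ u) = D2 e ξ (d1 e u) := by
  funext p
  rw [M1_sum, D2_apply, r1r_D1, r1l_D1]
  show _ = (ξ p.1.1 * ξ p.1.2) • (r1r e p u - r1l e p u)
  rw [smul_smul, smul_smul, smul_sub, mul_comm (ξ p.1.2)]

lemma M2_D2 (ξ : ι → κ) (u : C2 e) :
    (∑ i, ξ i • M2 e i) (D2 e ξ u) = D3 e ξ (d2 e u) := by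
  funext t
  rw [M2_sum, D3_apply, r2bc_D2, r2ac_D2, r2ab_D2]
  show _ = (ξ t.1.1 * ξ t.1.2.1 * ξ t.1.2.2) • (r2bc e t u - r2ac e t u + r2ab e t u)
  rw [smul_smul, smul_smul, smul_smul, smul_add, smul_sub]
  congr 1
  · congr 1
    · congr 1
      ring
    · congr 1
      ring
  · congr 1
    ring

end torus

/-- RK -/
theorem rk (h1 : T_Y1.{u}) (h2 : T_Y2.{u}) (h3 : T_Z.{u}) : T_RK.{u} := by
  intro K κ _ _ _ ι _ _ e hGP hne hPL
  classical
  obtain ⟨hY1a, hY1b, -⟩ := h1 κ ι e hGP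
  obtain ⟨hY2a, -⟩ := h2 κ ι e hGP
  obtain ⟨-, -, -, -, hZ1, hZ2⟩ := h3 κ ι e
  have hξ : ∀ x : ι → Kˣ, ∀ i, algebraMap K κ (x i) ≠ 0 := by
    intro x i
    rw [Ne, FaithfulSMul.algebraMap_eq_zero_iff K κ]
    exact (x i).ne_zero
  have hC1 : Module.finrank κ (C1 e) = 3 * Fintype.card ι := by
    rw [Module.finrank_pi_fintype]
    have : ∀ a, Module.finrank κ ((Fin 4 → κ) ⧸ E1 e a) = 3 := by
      intro a
      rw [finrank_quot, finrank_E1 e a (hne a)]
    rw [Finset.sum_congr rfl (fun a _ => this a)]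
    simp [mul_comm]
  have hC2 : Module.finrank κ (C2 e) = Fintype.card ι * (Fintype.card ι - 1) := by
    rw [Module.finrank_pi_fintype]
    have : ∀ p : Prs ι, Module.finrank κ ((Fin 4 → κ) ⧸ E2 e p.1.1 p.1.2) = 2 := by
      intro p
      rw [finrank_quot, finrank_E2 e _ _ (hPL _ _ p.2.ne)]
    rw [Finset.sum_congr rfl (fun a _ => this a), ← card_Prs]
    simp [mul_comm]
  have hC3 : Module.finrank κ (C3 e) =
      ∑ t : Trs ι, (4 - Module.finrank κ (E3 e t.1.1 t.1.2.1 t.1.2.2)) := by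
    rw [Module.finrank_pi_fintype]
    exact Finset.sum_congr rfl (fun t _ => finrank_quot _)
  have hker : Module.finrank κ (LinearMap.ker (d1 e)) = 4 := by
    have h : LinearMap.ker (d1 e) = LinearMap.range (d0 e) := by
      ext u
      constructor
      · intro hu
        exact hY1b u hu
      · rintro ⟨v, rfl⟩
        exact hZ1 v
    rw [h]
    have hinj : Function.Injective (d0 e) := by
      rw [← LinearMap.ker_eq_bot, LinearMap.ker_eq_bot']
      exact hY1a
    rw [LinearMap.finrank_range_of_inj hinj, Module.finrank_fin_fun]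
  refine ⟨?_, ?_, hC1, hC2, hC3, ?_, ?_⟩
  · intro x
    set ξ : ι → κ := fun i => algebraMap K κ (x i) with hξdef
    have hx : ∀ i, ξ i ≠ 0 := hξ x
    ext v
    constructor
    · rintro ⟨u, rfl⟩
      have hu : (∑ i, ξ i • M1 e i) u =
          D2 e ξ (d1 e (D1 e (fun i => (ξ i)⁻¹) u)) := by
        rw [← M1_D1, D1_inv e ξ hx]
      show (∑ i, ξ i • M2 e i) ((∑ i, ξ i • M1 e i) u) = 0
      rw [hu, M2_D2, hZ2, map_zero]
    · intro hv
      have hv' : (∑ i, ξ i • M2 e i) v = 0 := hv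
      rw [← D2_inv e ξ hx v, M2_D2] at hv'
      have hv2 : d2 e (D2 e (fun i => (ξ i)⁻¹) v) = 0 :=
        D3_inj e ξ hx (by rw [hv', map_zero])
      obtain ⟨u, hu⟩ := hY2a _ hv2
      refine ⟨D1 e ξ u, ?_⟩
      show (∑ i, ξ i • M1 e i) (D1 e ξ u) = v
      rw [M1_D1, hu, D2_inv e ξ hx]
  · intro x
    set ξ : ι → κ := fun i => algebraMap K κ (x i) with hξdef
    have hx : ∀ i, ξ i ≠ 0 := hξ x
    have hrn := LinearMap.finrank_range_add_finrank_ker (∑ i, ξ i • M1 e i)
    have hk : Module.finrank κ (LinearMap.ker (∑ i, ξ i • M1 e i)) = 4 := by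
      have h : LinearMap.ker (∑ i, ξ i • M1 e i) = (LinearMap.ker (d1 e)).map (D1 e ξ) := by
        ext u
        constructor
        · intro hu
          have hu' : (∑ i, ξ i • M1 e i) u = 0 := hu
          rw [← D1_inv e ξ hx u, M1_D1] at hu'
          refine ⟨D1 e (fun i => (ξ i)⁻¹) u, ?_, D1_inv e ξ hx u⟩
          exact D2_inj e ξ hx (by rw [hu', map_zero])
        · rintro ⟨w, hw, rfl⟩
          show (∑ i, ξ i • M1 e i) (D1 e ξ w) = 0
          have hw' : d1 e w = 0 := hw
          rw [M1_D1, hw', map_zero]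
      rw [h]
      exact (Submodule.equivMapOfInjective (D1 e ξ) (D1_inj e ξ hx) _).finrank_eq.symm.trans hker
    rw [hk, hC1] at hrn
    exact hrn
  · rw [hC3]
    refine card_Trs.trans ?_
    rw [← Finset.card_univ, Finset.card_eq_sum_ones]
    apply Finset.sum_le_sum
    intro t _
    have := finrank_E3_le e t.1.1 t.1.2.1 t.1.2.2
    omega
  · obtain ⟨g, h, hgh, -, -, -⟩ := hGP ∅ (by simp)
    obtain ⟨g', h', hgh', hg', hh', -⟩ := hGP {g, h} (by
      exact (Finset.card_le_two).trans (by norm_num))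
    obtain ⟨g'', h'', hgh'', hg'', hh'', -⟩ := hGP {g, h, g'} (by exact Finset.card_le_three)
    simp only [Finset.mem_insert, Finset.mem_singleton, not_or] at hg' hh' hg'' hh''
    have key : ∀ k : ι, k ≠ g → k ≠ h → k ≠ g' → k ≠ h' → 5 ≤ Fintype.card ι := by
      intro k k1 k2 k3 k4
      have hc : ({g, h, g', h', k} : Finset ι).card = 5 := by
        rw [Finset.card_insert_of_notMem, Finset.card_insert_of_notMem,
          Finset.card_insert_of_notMem, Finset.card_insert_of_notMem, Finset.card_singleton]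
        · simpa using k4.symm
        · simp only [Finset.mem_insert, Finset.mem_singleton, not_or]
          exact ⟨hgh', k3.symm⟩
        · simp only [Finset.mem_insert, Finset.mem_singleton, not_or]
          exact ⟨fun h => hg'.2 h.symm, fun h => hh'.2 h.symm, k2.symm⟩
        · simp only [Finset.mem_insert, Finset.mem_singleton, not_or]
          exact ⟨hgh, fun h => hg'.1 h.symm, fun h => hh'.1 h.symm, k1.symm⟩
      rw [← hc]
      exact Finset.card_le_univ _
    by_cases hk : g'' = h'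
    · exact key h'' hh''.1 hh''.2.1 hh''.2.2 (fun h => hgh'' (hk.trans h.symm))
    · exact key g'' hg''.1 hg''.2.1 hg''.2.2 hk

end Pool.Agent.H29.FS
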